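import Mathlib
import Pool.Agent.K.MP_ede858_pr.C0

set_option autoImplicit false

open Pool.Agent.P.MP_ede858_pr

namespace Pool.Agent.Results.MP_ede858_pr.NeverHCM

theorem result :
    (∀ μ ν a b c : ℝ, -1 < μ → 0 < μ + ν → 0 < a → a < b → 0 < c →
      ¬ IsHCM (fun x => c * (x ^ (ν - 1) * Real.exp (-b * x) * besselI μ (a * x)))) ∧
    (∀ μ a b c : ℝ, -1 / 4 < μ → 0 < a → 2 * a < b → 0 < c →
      ¬ IsHCM (fun x => c * (x ^ (2 * μ) * Real.exp (-b * x) * besselI μ (a * x) ^ 2))) :=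
  Pool.Agent.P.MP_ede858_pr.main

end Pool.Agent.Results.MP_ede858_pr.NeverHCM
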