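import Mathlib
import Pool.Agent.K.MP_ede858_pr.C1

set_option autoImplicit false

open Pool.Agent.P.MP_ede858_pr

namespace Pool.Agent.Results.MP_ede858_pr.Q2

theorem result :
    (∀ μ ν A B C : ℝ, -1 < μ → 0 < μ + ν → A = (μ + ν + 1) / 2 → B = (μ + ν) / 2 → C = μ + 1 →
      ((∀ x : ℝ, 0 ≤ x → 0 < lev A B C x) ∧ Differentiable ℝ (lev A B C) ∧
        IsLUB {y : ℝ | ∃ x : ℝ, 0 < x ∧ y = deriv (lev A B C) x / lev A B C x} (kap A B C)) ∧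
      (1 < kap A B C ↔ μ + 1 < ν) ∧
      (ν = μ + 2 → kap A B C = (2 * μ + 3) / Real.sqrt ((2 * μ + 3) ^ 2 - 1)) ∧
      (ν = μ + 3 → ∀ x : ℝ,
        lev A B C x = (2 * μ + 5) * Real.cosh x - 2 * Real.cos (x / Real.sqrt (2 * μ + 2))) ∧
      ∀ (a b : ℝ) (P : MeasureTheory.Measure ℝ), 0 < a → a < b →
        P = nlaw (fun x => x ^ (ν - 1) * Real.exp (-b * x) * besselI μ (a * x)) →
        MeasureTheory.IsProbabilityMeasure P ∧ (IsSD P ↔ kap A B C * a ≤ b) ∧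
          (IsGGC P ↔ ν ≤ μ + 1)) ∧
    (∀ μ A B C : ℝ, -1 / 4 < μ → A = μ + 1 / 2 → B = 2 * μ + 1 / 2 → C = μ + 1 →
      ((∀ x : ℝ, 0 ≤ x → 0 < lev A B C x) ∧ Differentiable ℝ (lev A B C) ∧
        IsLUB {y : ℝ | ∃ x : ℝ, 0 < x ∧ y = deriv (lev A B C) x / lev A B C x} (kap A B C)) ∧
      (1 < kap A B C ↔ 1 / 2 < μ) ∧
      ∀ (a b : ℝ) (P : MeasureTheory.Measure ℝ), 0 < a → 2 * a < b →
        P = nlaw (fun x => x ^ (2 * μ) * Real.exp (-b * x) * besselI μ (a * x) ^ 2) →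
        MeasureTheory.IsProbabilityMeasure P ∧ (IsSD P ↔ kap A B C * (2 * a) ≤ b) ∧
          (IsGGC P ↔ μ ≤ 1 / 2)) := by
  constructor
  · rintro μ ν A B C hμ hρ rfl rfl rfl
    refine ⟨lev_facts (by linarith) (good_phi hμ hρ), one_lt_kap_phi hμ hρ, ?_, ?_, ?_⟩
    · rintro rfl
      exact kap_phi_two hμ
    · rintro rfl
      exact lev_phi_three hμ
    · rintro a b P ha hb rfl
      exact ⟨(setup_phi hμ hρ ha hb).prob, sd_phi hμ hρ ha hb, ggc_phi hμ hρ ha hb⟩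
  · rintro μ A B C hμ rfl rfl rfl
    refine ⟨lev_facts (by linarith) (good_xi hμ), one_lt_kap_xi hμ, ?_⟩
    rintro a b P ha hb rfl
    exact ⟨(setup_xi hμ ha hb).prob, sd_xi hμ ha hb, ggc_xi hμ ha hb⟩

end Pool.Agent.Results.MP_ede858_pr.Q2
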